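import Mathlib
import Pool.Agent.H999R5.Inj.Defs
import Pool.Agent.H999R5.Rk.Defs
import Pool.Agent.H999R5.SpF.Defs

/-!
# All exponents `p > 2`: statements of the tasks
-/

set_option autoImplicit false

namespace Pool.Agent.H999R5.Gp

open MeasureTheory ProbabilityTheory Finset
open Pool.Agent.H999R5.Inj (form SymT injNorm gm gs qf GX S_OP S_SQ S_BDD)
open Pool.Agent.H999R5.Rk (ball sg sn Bd S_SN S_GR S_L1 S_POLI)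
open Pool.Agent.H999R5.Sp (LQ Split S_NUM S_PLM)
open scoped Matrix

/-- the norm bound -/
def NB (p : ℝ) {d : ℕ} (M : Matrix (Fin d) (Fin d) ℝ) (N : ℝ) : Prop :=
  ∀ x : Fin d → ℝ, (∑ i, |x i| ^ p) ≤ 1 → |qf M x| ≤ N

def S_KHG : Prop :=
  ∀ p : ℝ, 2 < p → ∃ c : ℝ, 1 ≤ c ∧ ∀ (d : ℕ) (b : Fin d → ℝ),
    (∑ ε : Fin d → Bool, |∑ l, b l * (if ε l then (1 : ℝ) else -1)| ^ p) / 2 ^ d ≤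
      c * (∑ l, b l ^ 2) ^ (p / 2)

def RND (p K : ℝ) : Prop :=
  ∀ (d : ℕ) (M : Matrix (Fin d) (Fin d) ℝ) (N : ℝ), 0 ≤ N →
    (∀ x : Fin d → ℝ, (∑ i, |x i| ^ p) ≤ 1 → |qf M x| ≤ N) →
    ∀ Y : Matrix (Fin d) (Fin d) ℝ, Y.PosSemidef →
      |(M * Y).trace| ≤ K * N * (∑ k, (Y k k) ^ (p / 2)) ^ (2 / p)

/-- task RNDG (uses KHG) -/
def S_RNDG : Prop := ∀ p : ℝ, 2 < p → ∃ K : ℝ, 1 ≤ K ∧ RND p K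

def DUAL (p K : ℝ) : Prop :=
  ∀ (d : ℕ) (M : Matrix (Fin d) (Fin d) ℝ) (N : ℝ), M.IsSymm →
    0 ≤ N → (∀ x : Fin d → ℝ, (∑ i, |x i| ^ p) ≤ 1 → |qf M x| ≤ N) →
    ∃ w : Fin d → ℝ, (∀ k, 0 ≤ w k) ∧
      (∑ k, w k ^ (p / (p - 2))) ^ ((p - 2) / p) ≤ K * N ∧
      ∀ x : Fin d → ℝ, qf M x ≤ ∑ k, w k * x k ^ 2

/-- task DUALG -/
def S_DUALG : Prop := ∀ p K : ℝ, 2 < p → 1 ≤ K → RND p K → DUAL p K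

def TWO (p K : ℝ) : Prop :=
  ∀ (d : ℕ) (M : Matrix (Fin d) (Fin d) ℝ) (N : ℝ), M.IsSymm →
    0 ≤ N → (∀ x : Fin d → ℝ, (∑ i, |x i| ^ p) ≤ 1 → |qf M x| ≤ N) →
    ∃ w : Fin d → ℝ, (∀ k, 0 ≤ w k) ∧ (∀ k, w k ≤ 2 * K * N) ∧
      (∑ k, w k ^ (p / (p - 2))) ^ ((p - 2) / p) ≤ 2 * K * N ∧
      ∀ x : Fin d → ℝ, |qf M x| ≤ ∑ k, w k * x k ^ 2

/-- task TWOG -/
def S_TWOG : Prop := ∀ p K : ℝ, 2 < p → 1 ≤ K → DUAL p K → TWO p K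

def FIN (p K : ℝ) : Prop :=
  ∀ n d : ℕ, 1 ≤ d → ∀ (M : Fin n → Matrix (Fin d) (Fin d) ℝ)
    (N : Fin n → ℝ), (∀ i, (M i).IsSymm) → (∀ i, 0 ≤ N i) →
    (∀ i (x : Fin d → ℝ), (∑ k, |x k| ^ p) ≤ 1 → |qf (M i) x| ≤ N i) →
    ∃ F : (Fin n → ℝ) → ℝ, (∀ g, 0 ≤ F g) ∧ Integrable F (gm n) ∧
      (∀ g (x : Fin d → ℝ), (∑ k, |x k| ^ p) ≤ 1 → |qf (GX M g) x| ≤ F g) ∧
      ∫ g, F g ∂(gm n) ≤ 16 * K * Real.sqrt (Real.log (Real.exp 1 * d)) *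
        (d : ℝ) ^ (1 / 2 - 1 / p) * Real.sqrt (∑ i, N i ^ 2)

/-- task FING -/
def S_FING : Prop := S_OP → S_SQ → ∀ p K : ℝ, 2 < p → 1 ≤ K → TWO p K → FIN p K

/-- task FI2 -/
def S_FI2 : Prop := S_OP → S_SQ → FIN 2 1

def LQ1 (p C : ℝ) : Prop :=
  ∀ n d : ℕ, 1 ≤ d → ∀ (q : Fin n → (Fin d → ℝ) → ℝ)
    (L : Fin n → ℝ), (∀ i, LQ (q i)) → (∀ i, 0 ≤ L i) →
    (∀ i, ∀ x ∈ ball d p, |q i x| ≤ L i) →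
    ∫ g, sn (fun i (x : ↥(ball d p)) => q i x.1) g ∂(gm n) ≤
      C * Real.sqrt (Real.log (Real.exp 1 * d)) * (d : ℝ) ^ (1 / 2 - 1 / p) *
        Real.sqrt (∑ i, L i ^ 2)

/-- task LQG -/
def S_LQG : Prop := S_L1 → S_SN → ∀ p K : ℝ, 2 ≤ p → 1 ≤ K → FIN p K → LQ1 p (16 * K + 1)

def PWR (p C : ℝ) : Prop :=
  ∀ m n d : ℕ, 1 ≤ m → 1 ≤ d →
    ∀ (q : Fin n → Fin m → (Fin d → ℝ) → ℝ) (L : Fin n → Fin m → ℝ), (∀ i j, LQ (q i j)) →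
    (∀ i j, 0 ≤ L i j) → (∀ i j, ∀ x ∈ ball d p, |q i j x| ≤ L i j) →
    ∫ g, sn (fun i (x : ↥(ball d p)) => ∏ j, q i j x.1) g ∂(gm n) ≤
      2 * C * ((m : ℝ) ^ (m + 1) / m.factorial) * Real.sqrt (Real.log (Real.exp 1 * d)) *
        (d : ℝ) ^ (1 / 2 - 1 / p) * Real.sqrt (∑ i, (∏ j, L i j) ^ 2)

/-- task PWG -/
def S_PWG : Prop :=
  S_NUM → S_GR → S_SN → ∀ p C : ℝ, 2 ≤ p → 0 ≤ C → LQ1 p C → PWR p C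

def GRP (p C : ℝ) : Prop :=
  ∀ r : ℕ, 1 ≤ r → ∀ n d : ℕ, 1 ≤ d →
    ∀ (f : Fin n → (Fin d → ℝ) → ℝ) (K : Fin n → ℝ),
    (∀ i, ∃ (m : ℕ) (q : Fin m → (Fin d → ℝ) → ℝ) (L : Fin m → ℝ), 1 ≤ m ∧ m ≤ r ∧
      (∀ j, LQ (q j)) ∧ (∀ j, 0 ≤ L j) ∧ (∀ j, ∀ x ∈ ball d p, |q j x| ≤ L j) ∧
      (∀ x, f i x = ∏ j, q j x) ∧ ∏ j, L j ≤ K i) →
    ∫ g, sn (fun i (x : ↥(ball d p)) => f i x.1) g ∂(gm n) ≤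
      2 * C * (r : ℝ) ^ (r + 2) * Real.sqrt (Real.log (Real.exp 1 * d)) *
        (d : ℝ) ^ (1 / 2 - 1 / p) * Real.sqrt (∑ i, K i ^ 2)

/-- task GRG -/
def S_GRG : Prop := S_SN → ∀ p C : ℝ, 2 ≤ p → 0 ≤ C → PWR p C → GRP p C

def RES (p C : ℝ) : Prop :=
  ∀ r : ℕ, 1 ≤ r → ∀ d n : ℕ, 1 ≤ d →
    ∀ T : Fin n → (Fin r → Fin d) → ℝ, (∀ i, SymT (T i)) → (∀ i, Split (T i)) →
      Integrable (fun g => injNorm p (gs T g)) (gm n) ∧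
      ∫ g, injNorm p (gs T g) ∂(gm n) ≤
        2 * C * (r : ℝ) ^ (r + 2) * ((2 * r + 1 : ℕ) : ℝ) ^ (2 * r * (2 * r + 1)) *
          Real.sqrt (Real.log (Real.exp 1 * d)) * (d : ℝ) ^ (1 / 2 - 1 / p) *
          Real.sqrt (∑ i, injNorm p (T i) ^ 2)

/-- task REG -/
def S_REG : Prop := S_PLM → S_BDD → S_SN → ∀ p C : ℝ, 2 ≤ p → 0 ≤ C → GRP p C → RES p C

end Pool.Agent.H999R5.Gp
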