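import Mathlib
import Pool.Agent.H999R5.Gp.Defs

/-! Task DUAL (helper296): one-sided domination by a diagonal matrix. -/

set_option autoImplicit false

namespace Pool.Agent.H999R5.Gp

open MeasureTheory ProbabilityTheory Finset
open scoped Matrix Pointwise
open Pool.Agent.H999R5.Inj (form SymT injNorm gm gs qf GX scl S_OP S_SQ S_BDD)


/-- the quadratic form of an array -/
noncomputable def DUAL_q {d : ℕ} (S : Fin d → Fin d → ℝ) (x : Fin d → ℝ) : ℝ :=
  ∑ k, ∑ l, S k l * (x k * x l)

lemma DUAL_qf {d : ℕ} (M : Matrix (Fin d) (Fin d) ℝ) (x : Fin d → ℝ) :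
    qf M x = DUAL_q (fun k l => M k l) x := by
  unfold qf DUAL_q
  simp only [dotProduct, Matrix.mulVec, Finset.mul_sum]
  refine Finset.sum_congr rfl fun k _ => Finset.sum_congr rfl fun l _ => ?_
  ring

/-- diagonal arrays -/
noncomputable def DUAL_D {d : ℕ} : (Fin d → ℝ) →ₗ[ℝ] (Fin d → Fin d → ℝ) where
  toFun w := fun k l => if k = l then w k else 0
  map_add' := by
    intro v w
    funext k l
    simp only [Pi.add_apply]
    split_ifs <;> simp
  map_smul' := by
    intro c w
    funext k l
    simp only [Pi.smul_apply, smul_eq_mul, RingHom.id_apply]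
    split_ifs <;> simp

lemma DUAL_qD {d : ℕ} (w x : Fin d → ℝ) : DUAL_q (DUAL_D w) x = ∑ k, w k * x k ^ 2 := by
  unfold DUAL_q
  refine Finset.sum_congr rfl fun k _ => ?_
  have : ∀ l, (DUAL_D w) k l * (x k * x l) = if k = l then w k * (x k * x l) else 0 := by
    intro l
    change (if k = l then w k else 0) * (x k * x l) = _
    split_ifs <;> simp
  rw [Finset.sum_congr rfl fun l _ => this l, Finset.sum_ite_eq]
  simp only [Finset.mem_univ, if_true]
  ring

lemma DUAL_q_add {d : ℕ} (S T : Fin d → Fin d → ℝ) (x : Fin d → ℝ) :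
    DUAL_q (S + T) x = DUAL_q S x + DUAL_q T x := by
  unfold DUAL_q
  rw [← Finset.sum_add_distrib]
  refine Finset.sum_congr rfl fun k _ => ?_
  rw [← Finset.sum_add_distrib]
  refine Finset.sum_congr rfl fun l _ => ?_
  simp only [Pi.add_apply]
  ring

lemma DUAL_q_smul {d : ℕ} (a : ℝ) (S : Fin d → Fin d → ℝ) (x : Fin d → ℝ) :
    DUAL_q (a • S) x = a * DUAL_q S x := by
  unfold DUAL_q
  rw [Finset.mul_sum]
  refine Finset.sum_congr rfl fun k _ => ?_
  rw [Finset.mul_sum]
  refine Finset.sum_congr rfl fun l _ => ?_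
  simp only [Pi.smul_apply, smul_eq_mul]
  ring

lemma DUAL_B_closed (d : ℕ) : IsClosed {S : Fin d → Fin d → ℝ | ∀ x, DUAL_q S x ≤ 0} := by
  have : {S : Fin d → Fin d → ℝ | ∀ x, DUAL_q S x ≤ 0} = ⋂ x, {S | DUAL_q S x ≤ 0} := by
    ext S; simp
  rw [this]
  refine isClosed_iInter fun x => isClosed_le ?_ continuous_const
  unfold DUAL_q
  fun_prop

lemma DUAL_B_convex (d : ℕ) : Convex ℝ {S : Fin d → Fin d → ℝ | ∀ x, DUAL_q S x ≤ 0} := by
  intro S hS T hT a b ha hb _ x
  rw [DUAL_q_add, DUAL_q_smul, DUAL_q_smul]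
  have h1 := mul_nonneg ha (neg_nonneg.2 (hS x))
  have h2 := mul_nonneg hb (neg_nonneg.2 (hT x))
  linarith

/-- the set of weights -/
def DUAL_W (d : ℕ) (s K : ℝ) : Set (Fin d → ℝ) := {w | (∀ k, 0 ≤ w k) ∧ ∑ k, w k ^ s ≤ K ^ s}

lemma DUAL_W_convex (d : ℕ) (s K : ℝ) (hs : 1 ≤ s) : Convex ℝ (DUAL_W d s K) := by
  intro v hv w hw a b ha hb hab
  refine ⟨fun k => ?_, ?_⟩
  · simp only [Pi.add_apply, Pi.smul_apply, smul_eq_mul]
    have h1 := mul_nonneg ha (hv.1 k)
    have h2 := mul_nonneg hb (hw.1 k)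
    linarith
  · have h1 : ∀ k, (a • v + b • w) k ^ s ≤ a * v k ^ s + b * w k ^ s := by
      intro k
      have := (convexOn_rpow hs).2 (hv.1 k : v k ∈ Set.Ici (0:ℝ)) (hw.1 k : w k ∈ Set.Ici (0:ℝ)) ha hb hab
      simpa using this
    calc ∑ k, (a • v + b • w) k ^ s ≤ ∑ k, (a * v k ^ s + b * w k ^ s) :=
          Finset.sum_le_sum fun k _ => h1 k
      _ = a * ∑ k, v k ^ s + b * ∑ k, w k ^ s := by
          rw [Finset.sum_add_distrib, Finset.mul_sum, Finset.mul_sum]
      _ ≤ a * K ^ s + b * K ^ s :=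
          add_le_add (mul_le_mul_of_nonneg_left hv.2 ha) (mul_le_mul_of_nonneg_left hw.2 hb)
      _ = K ^ s := by rw [← add_mul, hab, one_mul]

lemma DUAL_W_compact (d : ℕ) (s K : ℝ) (hs : 1 ≤ s) (hK : 0 ≤ K) : IsCompact (DUAL_W d s K) := by
  have hc : IsCompact (Set.Icc (0 : Fin d → ℝ) (fun _ => K)) := isCompact_Icc
  refine hc.of_isClosed_subset ?_ ?_
  · have : DUAL_W d s K = (⋂ k, {w : Fin d → ℝ | 0 ≤ w k}) ∩ {w | ∑ k, w k ^ s ≤ K ^ s} := by
      ext w; simp [DUAL_W]
    rw [this]
    refine IsClosed.inter (isClosed_iInter fun k => isClosed_le continuous_const (continuous_apply k)) ?_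
    refine isClosed_le ?_ continuous_const
    refine continuous_finset_sum _ fun k _ => ?_
    exact (continuous_apply k).rpow_const fun _ => Or.inr (by linarith)
  · intro w hw
    refine ⟨fun k => hw.1 k, fun k => ?_⟩
    have h1 : w k ^ s ≤ K ^ s := by
      refine le_trans ?_ hw.2
      exact Finset.single_le_sum (f := fun k => w k ^ s)
        (fun i _ => Real.rpow_nonneg (hw.1 i) _) (Finset.mem_univ k)
    exact (Real.rpow_le_rpow_iff (hw.1 k) hK (by linarith)).1 h1

/-- coordinates of a functional -/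
lemma DUAL_f {d : ℕ} (f : (Fin d → Fin d → ℝ) →L[ℝ] ℝ) (S : Fin d → Fin d → ℝ) :
    f S = ∑ k, ∑ l, S k l * f (fun i j => if i = k ∧ j = l then 1 else 0) := by
  have h1 : S = ∑ k, ∑ l, S k l • (fun i j => if i = k ∧ j = l then (1 : ℝ) else 0 : Fin d → Fin d → ℝ) := by
    funext i j
    rw [Finset.sum_apply, Finset.sum_apply]
    rw [Finset.sum_eq_single i]
    · rw [Finset.sum_apply, Finset.sum_apply, Finset.sum_eq_single j]
      · simp
      · intro l _ hl
        simp [Ne.symm hl]
      · simp
    · intro k _ hk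
      rw [Finset.sum_apply, Finset.sum_apply]
      refine Finset.sum_eq_zero fun l _ => ?_
      simp [Ne.symm hk]
    · simp
  conv_lhs => rw [h1]
  rw [map_sum]
  refine Finset.sum_congr rfl fun k _ => ?_
  rw [map_sum]
  refine Finset.sum_congr rfl fun l _ => ?_
  rw [map_smul, smul_eq_mul]

theorem t_DUALG : S_DUALG := by
  intro p KK hp2 hKK h d M N hM hN hMN
  obtain ⟨s, hs⟩ : ∃ s, s = p / (p - 2) := ⟨_, rfl⟩
  obtain ⟨K, hK⟩ : ∃ K, K = KK * N := ⟨_, rfl⟩
  have hK0 : 0 ≤ K := by rw [hK]; exact mul_nonneg (by linarith) hN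
  have hp0 : 0 < p := by linarith
  have hp20 : 0 < p - 2 := by linarith
  have hs1 : 1 ≤ s := by
    rw [hs, le_div_iff₀ hp20]
    linarith
  have hs0 : 0 < s := by linarith
  have hsinv : (p - 2) / p = 1 / s := by rw [hs]; field_simp
  set Q : Set (Fin d → Fin d → ℝ) :=
    DUAL_D '' DUAL_W d s K + {S : Fin d → Fin d → ℝ | ∀ x, DUAL_q S x ≤ 0} with hQ
  by_cases hmem : (fun k l => M k l) ∈ Q
  · obtain ⟨S, ⟨w, hw, rfl⟩, T, hT, hST⟩ := hmem
    refine ⟨w, hw.1, ?_, ?_⟩
    · rw [← hs, hsinv, ← hK]
      have h1 : (∑ k, w k ^ s) ^ (1 / s) ≤ (K ^ s) ^ (1 / s) :=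
        Real.rpow_le_rpow (Finset.sum_nonneg fun k _ => Real.rpow_nonneg (hw.1 k) _) hw.2 (by positivity)
      rwa [← Real.rpow_mul hK0, mul_one_div_cancel hs0.ne', Real.rpow_one] at h1
    · intro x
      rw [DUAL_qf, ← hST]
      have h2 : DUAL_q (DUAL_D w + T) x = ∑ k, w k * x k ^ 2 + DUAL_q T x := by
        rw [DUAL_q_add, DUAL_qD]
      have h3 := hT x
      have h4 : DUAL_q ((fun x1 x2 => x1 + x2) (DUAL_D w) T) x = DUAL_q (DUAL_D w + T) x := rfl
      rw [h4, h2]
      linarith
  · exfalso
    have hcl : IsClosed Q := by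
      refine (DUAL_B_closed d).add_left_of_isCompact ?_
      refine (DUAL_W_compact d s K hs1 hK0).image ?_
      exact LinearMap.continuous_of_finiteDimensional _
    have hcv : Convex ℝ Q := ((DUAL_W_convex d s K hs1).linear_image _).add (DUAL_B_convex d)
    obtain ⟨f, u, hfu, hfM⟩ := geometric_hahn_banach_closed_point hcv hcl hmem
    set Z : Fin d → Fin d → ℝ := fun k l => f (fun i j => if i = k ∧ j = l then 1 else 0) with hZ
    have hf : ∀ S, f S = ∑ k, ∑ l, S k l * Z k l := fun S => DUAL_f f S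
    set Y : Matrix (Fin d) (Fin d) ℝ := Matrix.of fun k l => (Z k l + Z l k) / 2 with hY
    have h0W : (0 : Fin d → ℝ) ∈ DUAL_W d s K := by
      refine ⟨fun k => le_rfl, ?_⟩
      simp only [Pi.zero_apply]
      rw [Real.zero_rpow hs0.ne', Finset.sum_const_zero]
      positivity
    have hmemB : ∀ T : Fin d → Fin d → ℝ, (∀ x, DUAL_q T x ≤ 0) → T ∈ Q := by
      intro T hT
      refine ⟨DUAL_D 0, ⟨0, h0W, rfl⟩, T, hT, ?_⟩
      simp
    have hmemD : ∀ w ∈ DUAL_W d s K, DUAL_D w ∈ Q := by
      intro w hw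
      refine ⟨DUAL_D w, ⟨w, hw, rfl⟩, 0, ?_, by simp⟩
      intro x
      unfold DUAL_q
      simp
    have hu0 : 0 < u := by
      have := hfu 0 (hmemB 0 (fun x => by unfold DUAL_q; simp))
      simpa using this
    -- positivity
    have hpos : ∀ x : Fin d → ℝ, 0 ≤ ∑ k, ∑ l, Z k l * (x k * x l) := by
      intro x
      by_contra hneg
      rw [not_le] at hneg
      set z := ∑ k, ∑ l, Z k l * (x k * x l) with hz
      have hc : 0 ≤ u / (-z) := by
        apply div_nonneg hu0.le; linarith
      have h1 := hfu (fun k l => -(u / (-z)) * (x k * x l)) (hmemB _ (by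
        intro y
        have : DUAL_q (fun k l => -(u / (-z)) * (x k * x l)) y = -(u / (-z)) * (∑ k, x k * y k) ^ 2 := by
          unfold DUAL_q
          rw [sq, Finset.sum_mul_sum, Finset.mul_sum]
          refine Finset.sum_congr rfl fun k _ => ?_
          rw [Finset.mul_sum]
          refine Finset.sum_congr rfl fun l _ => ?_
          ring
        rw [this]
        have := mul_nonneg hc (sq_nonneg (∑ k, x k * y k))
        linarith))
      rw [hf] at h1
      have h2 : ∑ k, ∑ l, -(u / (-z)) * (x k * x l) * Z k l = -(u / (-z)) * z := by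
        rw [hz, Finset.mul_sum]
        refine Finset.sum_congr rfl fun k _ => ?_
        rw [Finset.mul_sum]
        refine Finset.sum_congr rfl fun l _ => ?_
        ring
      rw [h2] at h1
      have h3 : -(u / (-z)) * z = u := by
        have : -z ≠ 0 := by linarith
        have hz0 : z ≠ 0 := by linarith
        field_simp
      linarith
    have hYpsd : Y.PosSemidef := by
      refine Matrix.PosSemidef.of_dotProduct_mulVec_nonneg ?_ ?_
      · ext k l
        simp [hY, Matrix.conjTranspose_apply, add_comm]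
      · intro x
        have h1 : star x ⬝ᵥ Y *ᵥ x = ∑ k, ∑ l, Z k l * (x k * x l) := by
          have e1 : star x ⬝ᵥ Y *ᵥ x = ∑ k, ∑ l, (Z k l + Z l k) / 2 * (x k * x l) := by
            simp only [dotProduct, Matrix.mulVec, Finset.mul_sum, Pi.star_apply, star_trivial]
            refine Finset.sum_congr rfl fun k _ => Finset.sum_congr rfl fun l _ => ?_
            rw [hY, Matrix.of_apply]
            ring
          have e2 : ∑ k, ∑ l, Z l k * (x k * x l) = ∑ k, ∑ l, Z k l * (x k * x l) := by
            rw [Finset.sum_comm]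
            refine Finset.sum_congr rfl fun k _ => Finset.sum_congr rfl fun l _ => ?_
            ring
          have e3 : ∑ k, ∑ l, (Z k l + Z l k) / 2 * (x k * x l) =
              (∑ k, ∑ l, Z k l * (x k * x l) + ∑ k, ∑ l, Z l k * (x k * x l)) / 2 := by
            rw [← Finset.sum_add_distrib, Finset.sum_div]
            refine Finset.sum_congr rfl fun k _ => ?_
            rw [← Finset.sum_add_distrib, Finset.sum_div]
            refine Finset.sum_congr rfl fun l _ => ?_
            ring
          rw [e1, e3, e2]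
          ring
        rw [h1]
        exact hpos x
    have hYd : ∀ k, Y k k = Z k k := by
      intro k
      rw [hY, Matrix.of_apply]
      ring
    have hYd0 : ∀ k, 0 ≤ Y k k := fun k => hYpsd.diag_nonneg
    have hR := h d M N hN hMN Y hYpsd
    rw [← hK] at hR
    set A := ∑ k, (Y k k) ^ (p / 2) with hA
    have hA0 : 0 ≤ A := Finset.sum_nonneg fun k _ => Real.rpow_nonneg (hYd0 k) _
    have htr : f (fun k l => M k l) = (M * Y).trace := by
      rw [hf]
      have e1 : (M * Y).trace = ∑ k, ∑ l, M k l * ((Z k l + Z l k) / 2) := by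
        simp only [Matrix.trace, Matrix.diag_apply, Matrix.mul_apply]
        refine Finset.sum_congr rfl fun k _ => Finset.sum_congr rfl fun l _ => ?_
        rw [hY, Matrix.of_apply]
        ring
      have e2 : ∑ k, ∑ l, M k l * Z l k = ∑ k, ∑ l, M k l * Z k l := by
        rw [Finset.sum_comm]
        refine Finset.sum_congr rfl fun k _ => Finset.sum_congr rfl fun l _ => ?_
        rw [hM.apply]
      have e3 : ∑ k, ∑ l, M k l * ((Z k l + Z l k) / 2) =
          (∑ k, ∑ l, M k l * Z k l + ∑ k, ∑ l, M k l * Z l k) / 2 := by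
        rw [← Finset.sum_add_distrib, Finset.sum_div]
        refine Finset.sum_congr rfl fun k _ => ?_
        rw [← Finset.sum_add_distrib, Finset.sum_div]
        refine Finset.sum_congr rfl fun l _ => ?_
        ring
      rw [e1, e3, e2]
      ring
    have hfM2 : f (fun k l => M k l) ≤ K * A ^ (2 / p) := by
      rw [htr]
      exact (le_abs_self _).trans hR
    rcases hA0.eq_or_lt with hA1 | hA1
    · rw [← hA1, Real.zero_rpow (by positivity), mul_zero] at hfM2
      linarith
    · set w : Fin d → ℝ := fun k => K * (Y k k) ^ (p / 2 - 1) / A ^ (1 / s) with hw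
      have hA2 : 0 < A ^ (1 / s) := Real.rpow_pos_of_pos hA1 _
      have hw0 : ∀ k, 0 ≤ w k := by
        intro k
        have := Real.rpow_nonneg (hYd0 k) (p / 2 - 1)
        positivity
      have hexp : (p / 2 - 1) * s = p / 2 := by rw [hs]; field_simp
      have hws : ∀ k, w k ^ s = K ^ s * (Y k k) ^ (p / 2) / A := by
        intro k
        have h1 := Real.rpow_nonneg (hYd0 k) (p / 2 - 1)
        rw [hw]
        simp only
        rw [Real.div_rpow (by positivity) hA2.le, Real.mul_rpow hK0 h1, ← Real.rpow_mul (hYd0 k), hexp,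
          ← Real.rpow_mul hA0, one_div_mul_cancel hs0.ne', Real.rpow_one]
      have hwW : w ∈ DUAL_W d s K := by
        refine ⟨hw0, le_of_eq ?_⟩
        rw [Finset.sum_congr rfl fun k _ => hws k, ← Finset.sum_div, ← Finset.mul_sum, ← hA]
        field_simp
      have h1 := hfu _ (hmemD w hwW)
      have h2 : f (DUAL_D w) = ∑ k, w k * Y k k := by
        rw [hf]
        refine Finset.sum_congr rfl fun k _ => ?_
        have : ∀ l, (DUAL_D w) k l * Z k l = if k = l then w k * Z k l else 0 := by
          intro l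
          change (if k = l then w k else 0) * Z k l = _
          split_ifs <;> simp
        rw [Finset.sum_congr rfl fun l _ => this l, Finset.sum_ite_eq]
        simp only [Finset.mem_univ, if_true]
        rw [hYd]
      have h3 : ∀ k, w k * Y k k = K / A ^ (1 / s) * (Y k k) ^ (p / 2) := by
        intro k
        rw [hw]
        simp only
        have e1 : (Y k k) ^ (p / 2) = (Y k k) ^ (p / 2 - 1) * Y k k := by
          rcases (hYd0 k).eq_or_lt with h0 | h0
          · rw [← h0, mul_zero, Real.zero_rpow (by positivity)]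
          · rw [← Real.rpow_add_one h0.ne']
            congr 1
            ring
        rw [e1]
        ring
      rw [h2, Finset.sum_congr rfl fun k _ => h3 k, ← Finset.mul_sum, ← hA] at h1
      have h4 : K / A ^ (1 / s) * A = K * A ^ (2 / p) := by
        have e1 : A ^ (2 / p) = A / A ^ (1 / s) := by
          rw [← hsinv]
          have : (2 / p : ℝ) = 1 - (p - 2) / p := by field_simp; ring
          rw [this, Real.rpow_sub hA1, Real.rpow_one]
        rw [e1]
        ring
      rw [h4] at h1
      linarith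

end Pool.Agent.H999R5.Gp
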