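import Pool.Agent.H999R5.Gp.Defs
import Pool.Agent.H999R5.Inj.T_FIN

/-! FI2: the case `p = 2`. -/

set_option autoImplicit false

namespace Pool.Agent.H999R5.Gp

open MeasureTheory ProbabilityTheory Finset
open scoped Matrix
open Pool.Agent.H999R5.Inj (form SymT injNorm gm gs qf GX scl S_OP S_SQ S_BDD FIN_lin FIN_qf FIN_scale FIN_dot)

theorem FI2_hom {d : ℕ} (M : Matrix (Fin d) (Fin d) ℝ) (N : ℝ)
    (h : ∀ x : Fin d → ℝ, (∑ k, |x k| ^ (2 : ℝ)) ≤ 1 → |qf M x| ≤ N) (x : Fin d → ℝ) :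
    |qf M x| ≤ ∑ k, N * x k ^ 2 := by
  rw [← Finset.mul_sum]
  set s := ∑ k, x k ^ 2 with hs
  have hs0 : 0 ≤ s := Finset.sum_nonneg fun k _ => sq_nonneg _
  rcases hs0.eq_or_lt with h0 | h0
  · have hx : ∀ k, x k = 0 := by
      intro k
      have := (Finset.sum_eq_zero_iff_of_nonneg (fun i _ => sq_nonneg (x i))).1 h0.symm k
        (Finset.mem_univ k)
      exact pow_eq_zero_iff (two_ne_zero) |>.1 this
    have : qf M x = 0 := by
      rw [FIN_qf]
      simp [hx]
    rw [this, abs_zero, ← h0, mul_zero]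
  · set c := Real.sqrt s with hc
    have hc0 : 0 < c := Real.sqrt_pos.2 h0
    have hcs : c ^ 2 = s := Real.sq_sqrt hs0
    have h1 := h (fun k => x k / c) (by
      have : ∀ k, |x k / c| ^ (2 : ℝ) = x k ^ 2 / s := by
        intro k
        rw [show (2 : ℝ) = ((2 : ℕ) : ℝ) by norm_num, Real.rpow_natCast, sq_abs, div_pow, hcs]
      simp only [this]
      rw [← Finset.sum_div, ← hs, div_self h0.ne'])
    have h2 : qf M (fun k => x k / c) = qf M x / s := by
      rw [FIN_qf, FIN_qf, Finset.sum_div]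
      refine Finset.sum_congr rfl fun k _ => ?_
      rw [Finset.sum_div]
      refine Finset.sum_congr rfl fun l _ => ?_
      rw [← hcs]
      field_simp
    rw [h2, abs_div, abs_of_pos h0, div_le_iff₀ h0] at h1
    exact h1

theorem t_FI2 : S_FI2 := by
  intro hO hS n d hd M N hM hN hMN
  have hd0 : (0 : ℝ) < d := by exact_mod_cast hd
  have hb : ∀ i (x : Fin d → ℝ), |qf (M i) x| ≤ ∑ k, N i * x k ^ 2 :=
    fun i x => FI2_hom (M i) (N i) (hMN i) x
  set σ : ℝ := Real.sqrt (∑ i, N i ^ 2) with hσ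
  have hσ0 : 0 ≤ σ := Real.sqrt_nonneg _
  have hsum0 : 0 ≤ ∑ i, N i ^ 2 := Finset.sum_nonneg fun i _ => sq_nonneg _
  have hσ2 : σ ^ 2 = ∑ i, N i ^ 2 := Real.sq_sqrt hsum0
  have hlog : 0 ≤ Real.sqrt (Real.log (Real.exp 1 * d)) := Real.sqrt_nonneg _
  have hpow : 0 ≤ (d : ℝ) ^ ((1 : ℝ) / 2 - 1 / 2) := Real.rpow_nonneg hd0.le _
  rcases hσ0.eq_or_lt with h0 | h0
  · have h1 : ∑ i, N i ^ 2 = 0 := by rw [← hσ2, ← h0]; norm_num
    have h2 : ∀ i, N i = 0 := by
      intro i
      have := (Finset.sum_eq_zero_iff_of_nonneg (fun i _ => sq_nonneg (N i))).1 h1 i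
        (Finset.mem_univ i)
      exact pow_eq_zero_iff (two_ne_zero) |>.1 this
    have h4 : ∀ i x, qf (M i) x = 0 := by
      intro i x
      have := hb i x
      simp only [h2, zero_mul, Finset.sum_const_zero] at this
      exact abs_nonpos_iff.1 this
    refine ⟨fun _ => 0, fun _ => le_rfl, integrable_zero _ _ _, ?_, ?_⟩
    · intro g x _
      rw [FIN_lin]
      simp [h4]
    · simp only [integral_zero]
      positivity
  · obtain ⟨hA1, hA2⟩ := hS n d M (fun i _ => N i) N σ h0 hM (fun i _ => hN i) (fun i _ => le_rfl)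
      (fun i x => hb i x)
    set W : Fin d → ℝ := fun _ => σ + (∑ j, N j * N j) / σ with hWdef
    have hW2 : ∀ k, W k = 2 * σ := by
      intro k
      show σ + (∑ j, N j * N j) / σ = 2 * σ
      have : ∑ j, N j * N j = σ ^ 2 := by
        rw [hσ2]; exact Finset.sum_congr rfl fun i _ => by ring
      rw [this]
      field_simp
      ring
    have hWpos : ∀ k, 0 < W k := by
      intro k; rw [hW2 k]; linarith
    obtain ⟨F0, hF0, hF1, hF2, hF3⟩ := hO n d hd (fun i => scl W (M i)) hA1 hA2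
    refine ⟨fun g => F0 g * (2 * σ), fun g => mul_nonneg (hF0 g) (by linarith),
      hF1.mul_const _, ?_, ?_⟩
    · intro g x hx
      rw [FIN_scale M W hWpos g x]
      refine (hF2 g _).trans ?_
      rw [FIN_dot W (fun k => (hWpos k).le)]
      apply mul_le_mul_of_nonneg_left _ (hF0 g)
      have h3 : ∑ k, W k * x k ^ 2 = 2 * σ * ∑ k, x k ^ 2 := by
        rw [Finset.mul_sum]
        exact Finset.sum_congr rfl fun k _ => by rw [hW2 k]
      have h4 : ∑ k, x k ^ 2 ≤ 1 := by
        refine le_trans (le_of_eq ?_) hx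
        refine Finset.sum_congr rfl fun k _ => ?_
        rw [show (2 : ℝ) = ((2 : ℕ) : ℝ) by norm_num, Real.rpow_natCast, sq_abs]
      rw [h3]
      have := mul_le_mul_of_nonneg_left h4 (by linarith : 0 ≤ 2 * σ)
      linarith
    · rw [integral_mul_const]
      have h5 : (d : ℝ) ^ ((1 : ℝ) / 2 - 1 / 2) = 1 := by
        rw [sub_self, Real.rpow_zero]
      rw [h5]
      have h6 := mul_le_mul_of_nonneg_right hF3 (by linarith : 0 ≤ 2 * σ)
      have h7 : 0 ≤ Real.sqrt (Real.log (Real.exp 1 * d)) * σ := mul_nonneg hlog hσ0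
      refine h6.trans ?_
      nlinarith

end Pool.Agent.H999R5.Gp
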