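import Pool.Agent.H999R5.Gp.Defs

/-!
FIN: the matrix version of the result.
-/

set_option autoImplicit false

namespace Pool.Agent.H999R5.Gp

open MeasureTheory ProbabilityTheory Finset
open scoped Matrix
open Pool.Agent.H999R5.Inj (form SymT injNorm gm gs qf GX scl S_OP S_SQ S_BDD)


theorem FIN_qf {d : ℕ} (X : Matrix (Fin d) (Fin d) ℝ) (x : Fin d → ℝ) :
    qf X x = ∑ k, ∑ l, x k * (X k l * x l) := by
  unfold qf
  simp only [dotProduct, Matrix.mulVec, Finset.mul_sum]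

theorem FIN_GX {d n : ℕ} (A : Fin n → Matrix (Fin d) (Fin d) ℝ) (g : Fin n → ℝ) (k l : Fin d) :
    GX A g k l = ∑ i, g i * A i k l := by
  unfold GX
  rw [Matrix.sum_apply]
  rfl

theorem FIN_lin {d n : ℕ} (A : Fin n → Matrix (Fin d) (Fin d) ℝ) (g : Fin n → ℝ)
    (x : Fin d → ℝ) : qf (GX A g) x = ∑ i, g i * qf (A i) x := by
  simp only [FIN_qf, FIN_GX, Finset.sum_mul, Finset.mul_sum]
  rw [Finset.sum_comm]
  rw [Finset.sum_comm (s := (Finset.univ : Finset (Fin n)))]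
  rw [Finset.sum_comm]
  apply Finset.sum_congr rfl
  intro k _
  rw [Finset.sum_comm]
  apply Finset.sum_congr rfl
  intro i _
  apply Finset.sum_congr rfl
  intro l _
  ring

theorem FIN_sum {d n : ℕ} (s : ℝ) (hs : 1 ≤ s) (J : Finset (Fin n)) (f : Fin n → Fin d → ℝ)
    (hf : ∀ j k, 0 ≤ f j k) :
    (∑ k, (∑ j ∈ J, f j k) ^ s) ^ (1 / s) ≤ ∑ j ∈ J, (∑ k, f j k ^ s) ^ (1 / s) := by
  induction J using Finset.induction_on with
  | empty =>
    have h0 : s ≠ 0 := by positivity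
    simp [Real.zero_rpow h0, Real.zero_rpow (inv_ne_zero h0)]
  | insert a J ha ih =>
    simp only [Finset.sum_insert ha]
    refine (Real.Lp_add_le_of_nonneg _ hs (fun k _ => hf a k)
      (fun k _ => Finset.sum_nonneg fun j _ => hf j k)).trans ?_
    linarith

theorem FIN_smul {d : ℕ} (s : ℝ) (hs : 1 ≤ s) (c : ℝ) (hc : 0 ≤ c) (f : Fin d → ℝ)
    (hf : ∀ k, 0 ≤ f k) :
    (∑ k, (c * f k) ^ s) ^ (1 / s) = c * (∑ k, f k ^ s) ^ (1 / s) := by
  have h : ∀ k, (c * f k) ^ s = c ^ s * f k ^ s := fun k => Real.mul_rpow hc (hf k)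
  simp only [h]
  rw [← Finset.mul_sum, Real.mul_rpow (Real.rpow_nonneg hc _)
    (Finset.sum_nonneg fun k _ => Real.rpow_nonneg (hf k) _), ← Real.rpow_mul hc,
    mul_one_div_cancel (by positivity), Real.rpow_one]

/-- the norm of the weights -/
theorem FIN_norm {d n : ℕ} (s : ℝ) (hs : 1 ≤ s) (t : ℝ) (ht : 0 < t) (α : Fin n → ℝ)
    (hα : ∀ i, 0 ≤ α i) (w : Fin n → Fin d → ℝ) (hw : ∀ i k, 0 ≤ w i k)
    (hn : ∀ i, (∑ k, w i k ^ s) ^ (1 / s) ≤ α i) :
    (∑ k, (t + (∑ j, α j * w j k) / t) ^ s) ^ (1 / s) ≤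
      t * (d : ℝ) ^ (1 / s) + (∑ i, α i ^ 2) / t := by
  refine (Real.Lp_add_le_of_nonneg _ hs (fun k _ => ht.le)
    (fun k _ => div_nonneg (Finset.sum_nonneg fun j _ => mul_nonneg (hα j) (hw j k))
      ht.le)).trans ?_
  have h1 : (∑ k : Fin d, t ^ s) ^ (1 / s) = t * (d : ℝ) ^ (1 / s) := by
    rw [Finset.sum_const, Finset.card_univ, Fintype.card_fin, nsmul_eq_mul,
      Real.mul_rpow (Nat.cast_nonneg _) (Real.rpow_nonneg ht.le _), ← Real.rpow_mul ht.le,
      mul_one_div_cancel (by positivity), Real.rpow_one, mul_comm]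
  have h2 : (∑ k : Fin d, ((∑ j, α j * w j k) / t) ^ s) ^ (1 / s) ≤ (∑ i, α i ^ 2) / t := by
    have h3 : ∀ k, (∑ j, α j * w j k) / t = t⁻¹ * ∑ j, α j * w j k := by
      intro k; rw [div_eq_inv_mul]
    simp only [h3]
    rw [FIN_smul s hs t⁻¹ (by positivity) _
      (fun k => Finset.sum_nonneg fun j _ => mul_nonneg (hα j) (hw j k)),
      div_eq_inv_mul (∑ i, α i ^ 2) t]
    apply mul_le_mul_of_nonneg_left _ (by positivity)
    refine (FIN_sum s hs Finset.univ (fun j k => α j * w j k)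
      (fun j k => mul_nonneg (hα j) (hw j k))).trans ?_
    apply Finset.sum_le_sum
    intro i _
    rw [FIN_smul s hs (α i) (hα i) _ (hw i), pow_two]
    exact mul_le_mul_of_nonneg_left (hn i) (hα i)
  rw [h1]
  linarith

/-- Hoelder's inequality -/
theorem FIN_hoelder {d : ℕ} (p : ℝ) (hp : 2 < p) (W x : Fin d → ℝ) (hW : ∀ k, 0 ≤ W k)
    (hx : (∑ k, |x k| ^ p) ≤ 1) :
    ∑ k, W k * x k ^ 2 ≤ (∑ k, W k ^ (p / (p - 2))) ^ (1 / (p / (p - 2))) := by
  have hpq : (p / (p - 2)).HolderConjugate (p / 2) := by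
    rw [Real.holderConjugate_iff]
    constructor
    · rw [lt_div_iff₀ (by linarith)]; linarith
    · field_simp
      ring
  have h1 := Real.inner_le_Lp_mul_Lq_of_nonneg (Finset.univ : Finset (Fin d)) (f := W)
    (g := fun k => x k ^ 2) hpq (fun k _ => hW k) (fun k _ => sq_nonneg _)
  refine h1.trans ?_
  have h2 : ∀ k, (x k ^ 2) ^ (p / 2) = |x k| ^ p := by
    intro k
    rw [← sq_abs, ← Real.rpow_natCast, ← Real.rpow_mul (abs_nonneg _)]
    congr 1
    push_cast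
    ring
  simp only [h2]
  have h3 : (∑ k, |x k| ^ p) ^ (1 / (p / 2)) ≤ 1 :=
    Real.rpow_le_one (Finset.sum_nonneg fun k _ => Real.rpow_nonneg (abs_nonneg _) _) hx
      (by positivity)
  have h4 : 0 ≤ (∑ k, W k ^ (p / (p - 2))) ^ (1 / (p / (p - 2))) :=
    Real.rpow_nonneg (Finset.sum_nonneg fun k _ => Real.rpow_nonneg (hW k) _) _
  calc _ ≤ (∑ k, W k ^ (p / (p - 2))) ^ (1 / (p / (p - 2))) * 1 :=
        mul_le_mul_of_nonneg_left h3 h4
    _ = _ := mul_one _

/-- rescaling -/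
theorem FIN_scale {d n : ℕ} (M : Fin n → Matrix (Fin d) (Fin d) ℝ) (W : Fin d → ℝ)
    (hW : ∀ k, 0 < W k) (g : Fin n → ℝ) (x : Fin d → ℝ) :
    qf (GX M g) x = qf (GX (fun i => scl W (M i)) g) (fun k => Real.sqrt (W k) * x k) := by
  rw [FIN_lin, FIN_lin]
  apply Finset.sum_congr rfl
  intro i _
  congr 1
  rw [FIN_qf, FIN_qf]
  apply Finset.sum_congr rfl
  intro k _
  apply Finset.sum_congr rfl
  intro l _
  unfold scl
  rw [Matrix.of_apply]
  have h1 : Real.sqrt (W k) ≠ 0 := (Real.sqrt_pos.2 (hW k)).ne'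
  have h2 : Real.sqrt (W l) ≠ 0 := (Real.sqrt_pos.2 (hW l)).ne'
  field_simp

theorem FIN_dot {d : ℕ} (W : Fin d → ℝ) (hW : ∀ k, 0 ≤ W k) (x : Fin d → ℝ) :
    ((fun k => Real.sqrt (W k) * x k) ⬝ᵥ fun k => Real.sqrt (W k) * x k) =
      ∑ k, W k * x k ^ 2 := by
  unfold dotProduct
  apply Finset.sum_congr rfl
  intro k _
  have := Real.mul_self_sqrt (hW k)
  calc _ = (Real.sqrt (W k) * Real.sqrt (W k)) * x k ^ 2 := by ring
    _ = _ := by rw [this]

theorem t_FING : S_FING := by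
  intro hO hS p K hp hK hT n d hd M N hM hN hMN
  choose w hw0 hw1 hw2 hw3 using fun i => hT d (M i) (N i) (hM i) (hN i) (hMN i)
  have hd0 : (0 : ℝ) < d := by exact_mod_cast hd
  have hs1 : 1 ≤ p / (p - 2) := by
    rw [le_div_iff₀ (by linarith)]; linarith
  have hinv : 1 / (p / (p - 2)) = (p - 2) / p := by rw [one_div_div]
  set S : ℝ := Real.sqrt (∑ i, (2 * K * N i) ^ 2) with hSdef
  have hS4 : S = 2 * K * Real.sqrt (∑ i, N i ^ 2) := by
    rw [hSdef]
    have : ∑ i, (2 * K * N i) ^ 2 = (2 * K) ^ 2 * ∑ i, N i ^ 2 := by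
      rw [Finset.mul_sum]
      exact Finset.sum_congr rfl fun i _ => by ring
    rw [this, Real.sqrt_mul (by positivity), Real.sqrt_sq (by linarith)]
  have hlog : 0 ≤ Real.sqrt (Real.log (Real.exp 1 * d)) := Real.sqrt_nonneg _
  have hpow : 0 ≤ (d : ℝ) ^ (1 / 2 - 1 / p) := Real.rpow_nonneg hd0.le _
  rcases (Real.sqrt_nonneg (∑ i, (2 * K * N i) ^ 2)).eq_or_lt with h0 | h0
  · -- all matrices vanish
    have h1 : ∑ i, (2 * K * N i) ^ 2 = 0 := (Real.sqrt_eq_zero (Finset.sum_nonneg fun i _ => sq_nonneg _)).1 h0.symm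
    have h2 : ∀ i, 2 * K * N i = 0 := by
      intro i
      have := (Finset.sum_eq_zero_iff_of_nonneg (fun i _ => sq_nonneg (2 * K * N i))).1 h1 i
        (Finset.mem_univ i)
      exact pow_eq_zero_iff (two_ne_zero) |>.1 this
    have h3 : ∀ i k, w i k = 0 := fun i k => le_antisymm ((hw1 i k).trans_eq (h2 i)) (hw0 i k)
    have h4 : ∀ i x, qf (M i) x = 0 := by
      intro i x
      have := hw3 i x
      simp only [h3, zero_mul, Finset.sum_const_zero] at this
      exact abs_nonpos_iff.1 this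
    refine ⟨fun _ => 0, fun _ => le_rfl, integrable_zero _ _ _, ?_, ?_⟩
    · intro g x _
      rw [FIN_lin]
      simp [h4]
    · simp only [integral_zero]
      positivity
  · -- main case
    have hSpos : 0 < S := h0
    set t : ℝ := S * (d : ℝ) ^ (-(1 / 2 - 1 / p)) with ht
    have htpos : 0 < t := mul_pos hSpos (Real.rpow_pos_of_pos hd0 _)
    obtain ⟨hA1, hA2⟩ := hS n d M w (fun i => 2 * K * N i) t htpos hM hw0 hw1 hw3
    set W : Fin d → ℝ := fun k => t + (∑ j, (2 * K * N j) * w j k) / t with hWdef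
    have hα : ∀ i, 0 ≤ 2 * K * N i := fun i => mul_nonneg (by linarith) (hN i)
    have hWpos : ∀ k, 0 < W k := by
      intro k
      have : 0 ≤ (∑ j, (2 * K * N j) * w j k) / t :=
        div_nonneg (Finset.sum_nonneg fun j _ => mul_nonneg (hα j) (hw0 j k)) htpos.le
      show 0 < t + (∑ j, (2 * K * N j) * w j k) / t
      linarith
    obtain ⟨F0, hF0, hF1, hF2, hF3⟩ := hO n d hd (fun i => scl W (M i)) hA1 hA2
    have hc : 0 ≤ 2 * S * (d : ℝ) ^ (1 / 2 - 1 / p) := by positivity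
    have hnorm : (∑ k, W k ^ (p / (p - 2))) ^ (1 / (p / (p - 2))) ≤
        2 * S * (d : ℝ) ^ (1 / 2 - 1 / p) := by
      refine (FIN_norm (p / (p - 2)) hs1 t htpos (fun i => 2 * K * N i) hα w hw0 ?_).trans ?_
      · intro i
        rw [hinv]
        exact hw2 i
      · have e1 : ∑ i, (2 * K * N i) ^ 2 = S ^ 2 :=
          (Real.sq_sqrt (Finset.sum_nonneg fun i _ => sq_nonneg _)).symm
        have e2 : t * (d : ℝ) ^ (1 / (p / (p - 2))) = S * (d : ℝ) ^ (1 / 2 - 1 / p) := by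
          rw [ht, mul_assoc, ← Real.rpow_add hd0]
          congr 2
          rw [hinv]
          field_simp
          ring
        have e3 : S ^ 2 / t = S * (d : ℝ) ^ (1 / 2 - 1 / p) := by
          rw [ht, Real.rpow_neg hd0.le]
          have : (d : ℝ) ^ (1 / 2 - 1 / p) ≠ 0 := (Real.rpow_pos_of_pos hd0 _).ne'
          field_simp
        rw [e1, e2, e3]
        linarith
    refine ⟨fun g => F0 g * (2 * S * (d : ℝ) ^ (1 / 2 - 1 / p)),
      fun g => mul_nonneg (hF0 g) hc, hF1.mul_const _, ?_, ?_⟩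
    · intro g x hx
      rw [FIN_scale M W hWpos g x]
      refine (hF2 g _).trans ?_
      rw [FIN_dot W (fun k => (hWpos k).le)]
      apply mul_le_mul_of_nonneg_left _ (hF0 g)
      exact (FIN_hoelder p hp W x (fun k => (hWpos k).le) hx).trans hnorm
    · rw [integral_mul_const]
      calc _ ≤ 4 * Real.sqrt (Real.log (Real.exp 1 * d)) *
            (2 * S * (d : ℝ) ^ (1 / 2 - 1 / p)) := mul_le_mul_of_nonneg_right hF3 hc
        _ ≤ _ := by
          rw [hS4]
          exact le_of_eq (by ring)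

end Pool.Agent.H999R5.Gp
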