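import Pool.Agent.H999R5.Gp.Defs

/-! KHG: Khintchine's inequality for all exponents `p > 2`. -/

set_option autoImplicit false

namespace Pool.Agent.H999R5.Gp

open MeasureTheory ProbabilityTheory Finset

/-- sign -/
noncomputable def KHG_s (b : Bool) : ℝ := if b then 1 else -1

theorem KHG_prod (d : ℕ) (b : Fin d → ℝ) :
    ∑ ε : Fin d → Bool, Real.exp (∑ l, b l * KHG_s (ε l)) = ∏ l, (2 * Real.cosh (b l)) := by
  have h1 : ∀ l, 2 * Real.cosh (b l) = ∑ e : Bool, Real.exp (b l * KHG_s e) := by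
    intro l
    rw [Fintype.sum_bool, Real.cosh_eq]
    simp only [KHG_s]
    norm_num
    ring
  rw [Finset.prod_congr rfl fun l _ => h1 l, Finset.prod_univ_sum, Fintype.piFinset_univ]
  exact Finset.sum_congr rfl fun ε _ => Real.exp_sum _ _

theorem KHG_abs (d : ℕ) (b : Fin d → ℝ) (hb : ∑ l, b l ^ 2 ≤ 1) :
    (∑ ε : Fin d → Bool, Real.exp |∑ l, b l * KHG_s (ε l)|) / 2 ^ d ≤ 2 * Real.exp (1 / 2) := by
  have h1 : ∀ c : Fin d → ℝ, ∑ l, c l ^ 2 ≤ 1 →
      (∑ ε : Fin d → Bool, Real.exp (∑ l, c l * KHG_s (ε l))) / 2 ^ d ≤ Real.exp (1 / 2) := by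
    intro c hc
    rw [KHG_prod, Finset.prod_mul_distrib, Finset.prod_const, Finset.card_univ, Fintype.card_fin,
      mul_div_cancel_left₀ _ (by positivity)]
    calc ∏ l, Real.cosh (c l) ≤ ∏ l, Real.exp (c l ^ 2 / 2) :=
          Finset.prod_le_prod (fun l _ => (Real.cosh_pos _).le) fun l _ => Real.cosh_le_exp_half_sq _
      _ = Real.exp (∑ l, c l ^ 2 / 2) := (Real.exp_sum _ _).symm
      _ ≤ Real.exp (1 / 2) := by
          apply Real.exp_le_exp.2
          rw [← Finset.sum_div]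
          linarith
  have h2 := h1 b hb
  have h3 := h1 (fun l => -b l) (by simpa using hb)
  have h4 : ∑ ε : Fin d → Bool, Real.exp |∑ l, b l * KHG_s (ε l)| ≤
      ∑ ε : Fin d → Bool, Real.exp (∑ l, b l * KHG_s (ε l)) +
      ∑ ε : Fin d → Bool, Real.exp (∑ l, (-b l) * KHG_s (ε l)) := by
    rw [← Finset.sum_add_distrib]
    refine Finset.sum_le_sum fun ε _ => ?_
    have e : ∑ l, (-b l) * KHG_s (ε l) = -∑ l, b l * KHG_s (ε l) := by
      rw [← Finset.sum_neg_distrib]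
      exact Finset.sum_congr rfl fun l _ => by ring
    rw [e]
    rcases abs_choice (∑ l, b l * KHG_s (ε l)) with h | h
    · rw [h]; linarith [Real.exp_pos (-∑ l, b l * KHG_s (ε l))]
    · rw [h]; linarith [Real.exp_pos (∑ l, b l * KHG_s (ε l))]
  have h5 := div_le_div_of_nonneg_right h4 (by positivity : (0 : ℝ) ≤ 2 ^ d)
  rw [add_div] at h5
  linarith

theorem KHG_pow (p : ℝ) (hp : 2 < p) (t : ℝ) (ht : 0 ≤ t) :
    t ^ p ≤ (1 + (⌈p⌉₊.factorial : ℝ)) * Real.exp t := by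
  have hexp : 1 ≤ Real.exp t := Real.one_le_exp ht
  rcases le_or_gt t 1 with h | h
  · have h1 : t ^ p ≤ 1 := Real.rpow_le_one ht h (by linarith)
    have h2 : (0 : ℝ) ≤ (⌈p⌉₊.factorial : ℝ) * Real.exp t := by positivity
    nlinarith
  · have h1 : t ^ p ≤ t ^ ((⌈p⌉₊ : ℕ) : ℝ) :=
      Real.rpow_le_rpow_of_exponent_le h.le (Nat.le_ceil p)
    rw [Real.rpow_natCast] at h1
    have h2 : t ^ ⌈p⌉₊ / (⌈p⌉₊.factorial : ℝ) ≤ Real.exp t :=
      Real.pow_div_factorial_le_exp t ht ⌈p⌉₊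
    have hf : (0 : ℝ) < (⌈p⌉₊.factorial : ℝ) := by exact_mod_cast Nat.factorial_pos _
    rw [div_le_iff₀ hf] at h2
    nlinarith

theorem t_KHG : S_KHG := by
  intro p hp
  have hf : (1 : ℝ) ≤ (⌈p⌉₊.factorial : ℝ) := by exact_mod_cast Nat.factorial_pos _
  have he : 1 ≤ Real.exp (1 / 2) := Real.one_le_exp (by norm_num)
  refine ⟨(1 + (⌈p⌉₊.factorial : ℝ)) * (2 * Real.exp (1 / 2)), by nlinarith, ?_⟩
  intro d b
  change (∑ ε : Fin d → Bool, |∑ l, b l * KHG_s (ε l)| ^ p) / 2 ^ d ≤ _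
  set V := ∑ l, b l ^ 2 with hV
  have hV0 : 0 ≤ V := Finset.sum_nonneg fun l _ => sq_nonneg _
  rcases hV0.eq_or_lt with h0 | h0
  · have hb : ∀ l, b l = 0 := by
      intro l
      have := (Finset.sum_eq_zero_iff_of_nonneg (fun i _ => sq_nonneg (b i))).1 h0.symm l
        (Finset.mem_univ l)
      exact pow_eq_zero_iff (two_ne_zero) |>.1 this
    have hp0 : p ≠ 0 := by linarith
    simp only [hb, zero_mul, Finset.sum_const_zero, abs_zero, Real.zero_rpow hp0, zero_div]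
    positivity
  · set v := Real.sqrt V with hv
    have hv0 : 0 < v := Real.sqrt_pos.2 h0
    have hvV : v ^ 2 = V := Real.sq_sqrt hV0
    have hvp : v ^ p = V ^ (p / 2) := by
      rw [hv, Real.sqrt_eq_rpow, ← Real.rpow_mul hV0]
      congr 1
      ring
    have h1 := KHG_abs d (fun l => b l / v) (by
      simp only [div_pow]
      rw [← Finset.sum_div, hvV, ← hV, div_self h0.ne'])
    have h2 : ∀ ε : Fin d → Bool, |∑ l, b l * KHG_s (ε l)| ^ p =
        V ^ (p / 2) * |∑ l, b l / v * KHG_s (ε l)| ^ p := by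
      intro ε
      have e : ∑ l, b l * KHG_s (ε l) = v * ∑ l, b l / v * KHG_s (ε l) := by
        rw [Finset.mul_sum]
        refine Finset.sum_congr rfl fun l _ => ?_
        field_simp
      rw [e, abs_mul, abs_of_pos hv0, Real.mul_rpow hv0.le (abs_nonneg _), hvp]
    have h3 : ∑ ε : Fin d → Bool, |∑ l, b l / v * KHG_s (ε l)| ^ p ≤
        (1 + (⌈p⌉₊.factorial : ℝ)) * ∑ ε : Fin d → Bool, Real.exp |∑ l, b l / v * KHG_s (ε l)| := by
      rw [Finset.mul_sum]
      exact Finset.sum_le_sum fun ε _ => KHG_pow p hp _ (abs_nonneg _)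
    rw [Finset.sum_congr rfl fun ε _ => h2 ε, ← Finset.mul_sum, mul_div_assoc, mul_comm]
    refine mul_le_mul_of_nonneg_right ?_ (Real.rpow_nonneg hV0 _)
    calc _ ≤ ((1 + (⌈p⌉₊.factorial : ℝ)) *
          ∑ ε : Fin d → Bool, Real.exp |∑ l, b l / v * KHG_s (ε l)|) / 2 ^ d :=
          div_le_div_of_nonneg_right h3 (by positivity)
      _ = (1 + (⌈p⌉₊.factorial : ℝ)) *
          ((∑ ε : Fin d → Bool, Real.exp |∑ l, b l / v * KHG_s (ε l)|) / 2 ^ d) := by
          rw [mul_div_assoc]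
      _ ≤ _ := mul_le_mul_of_nonneg_left h1 (by positivity)

end Pool.Agent.H999R5.Gp
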