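import Pool.Agent.H999R5.Gp.Defs

/-!
# Gaussian sums of linear and quadratic forms on the unit ball of `ℓ_p`
-/

set_option autoImplicit false

namespace Pool.Agent.H999R5.Gp

open MeasureTheory ProbabilityTheory Finset
open Pool.Agent.H999R5.Inj (form SymT injNorm gm gs qf GX S_OP S_SQ S_BDD)
open Pool.Agent.H999R5.Rk (ball sg sn Bd S_SN S_GR S_L1 S_POLI)
open Pool.Agent.H999R5.Sp (LQ Split S_NUM S_PLM)
open scoped Matrix

theorem t_LQG : S_LQG := by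
  intro hL hN p KK hp1 hK hF n d hd q L hq hL0 hqL
  have hch : ∀ i, ∃ (u : Fin d → ℝ) (M : Matrix (Fin d) (Fin d) ℝ) (a b : ℝ), M.IsSymm ∧
      0 ≤ a ∧ 0 ≤ b ∧ a ≤ L i ∧ b ≤ L i ∧ (∀ x, q i x = u ⬝ᵥ x + qf M x) ∧
      (∀ x ∈ ball d p, |u ⬝ᵥ x| ≤ a) ∧ (∀ x ∈ ball d p, |qf M x| ≤ b) := by
    intro i
    rcases hq i with ⟨v, hv⟩ | ⟨M, hM, hM2⟩
    · refine ⟨v, 0, L i, 0, Matrix.isSymm_zero, hL0 i, le_refl _, le_refl _, hL0 i, ?_, ?_, ?_⟩
      · intro x; simp [qf, hv]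
      · intro x hx; rw [← hv]; exact hqL i x hx
      · intro x hx; simp [qf]
    · refine ⟨0, M, 0, L i, hM, le_refl _, hL0 i, hL0 i, le_refl _, ?_, ?_, ?_⟩
      · intro x; simp [hM2]
      · intro x hx; simp
      · intro x hx; rw [← hM2]; exact hqL i x hx
  choose u M a b hMs ha hb haL hbL hdec hu hM using hch
  obtain ⟨F, hF0, hFi, hFb, hFint⟩ := hF n d hd M b hMs hb (fun i x hx => hM i x hx)
  have hlin := hL d n p hd (by linarith) u a ha hu
  have hp0 : p ≠ 0 := by linarith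
  have hne : Nonempty (ball d p) := ⟨⟨0, by simp [ball, Real.zero_rpow hp0]⟩⟩
  have hBdq : Bd (fun i (x : ↥(ball d p)) => q i x.1) := ⟨∑ i, L i, fun i x =>
    (hqL i x.1 x.2).trans (Finset.single_le_sum (fun j _ => hL0 j) (Finset.mem_univ i))⟩
  have hBdu : Bd (fun i (x : ↥(ball d p)) => u i ⬝ᵥ x.1) := ⟨∑ i, a i, fun i x =>
    (hu i x.1 x.2).trans (Finset.single_le_sum (fun j _ => ha j) (Finset.mem_univ i))⟩
  obtain ⟨q1, q2, q3, q4, q5⟩ := hN _ hne n _ hBdq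
  obtain ⟨u1, u2, u3, u4, u5⟩ := hN _ hne n _ hBdu
  have key : ∀ g, sn (fun i (x : ↥(ball d p)) => q i x.1) g ≤
      sn (fun i (x : ↥(ball d p)) => u i ⬝ᵥ x.1) g + F g := by
    intro g
    apply q2
    intro x
    have e : ∑ i, g i * q i x.1 = (∑ i, g i * (u i ⬝ᵥ x.1)) + qf (Inj.GX M g) x.1 := by
      simp only [hdec, mul_add, Finset.sum_add_distrib]
      congr 1
      simp only [qf, Inj.GX, Matrix.sum_mulVec, Matrix.smul_mulVec, dotProduct_sum,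
        dotProduct_smul, smul_eq_mul]
    rw [e]
    exact (abs_add_le _ _).trans (add_le_add (u1 g x) (hFb g x.1 x.2))
  have hint : ∫ g, sn (fun i (x : ↥(ball d p)) => q i x.1) g ∂(gm n) ≤
      ∫ g, sn (fun i (x : ↥(ball d p)) => u i ⬝ᵥ x.1) g ∂(gm n) + ∫ g, F g ∂(gm n) := by
    rw [← integral_add u5 hFi]
    exact integral_mono q5 (u5.add hFi) key
  have hd1 : (1 : ℝ) ≤ d := by exact_mod_cast hd
  have hs : 1 ≤ Real.sqrt (Real.log (Real.exp 1 * d)) := by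
    rw [Real.one_le_sqrt]
    rw [Real.log_mul (Real.exp_pos 1).ne' (by positivity), Real.log_exp]
    have := Real.log_nonneg hd1
    linarith
  have hD : 0 ≤ (d : ℝ) ^ (1 / 2 - 1 / p) := by positivity
  have hSa : Real.sqrt (∑ i, a i ^ 2) ≤ Real.sqrt (∑ i, L i ^ 2) :=
    Real.sqrt_le_sqrt (Finset.sum_le_sum fun i _ => pow_le_pow_left₀ (ha i) (haL i) 2)
  have hSb : Real.sqrt (∑ i, b i ^ 2) ≤ Real.sqrt (∑ i, L i ^ 2) :=
    Real.sqrt_le_sqrt (Finset.sum_le_sum fun i _ => pow_le_pow_left₀ (hb i) (hbL i) 2)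
  have hS0 : 0 ≤ Real.sqrt (∑ i, L i ^ 2) := Real.sqrt_nonneg _
  set s := Real.sqrt (Real.log (Real.exp 1 * d)) with hsdef
  set D := (d : ℝ) ^ (1 / 2 - 1 / p) with hDdef
  set S := Real.sqrt (∑ i, L i ^ 2) with hSdef
  have h1 : D * Real.sqrt (∑ i, a i ^ 2) ≤ s * D * S := by
    calc D * Real.sqrt (∑ i, a i ^ 2) ≤ D * S := mul_le_mul_of_nonneg_left hSa hD
      _ = 1 * (D * S) := by ring
      _ ≤ s * (D * S) := mul_le_mul_of_nonneg_right hs (mul_nonneg hD hS0)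
      _ = s * D * S := by ring
  have h2 : 16 * KK * s * D * Real.sqrt (∑ i, b i ^ 2) ≤ 16 * KK * s * D * S :=
    mul_le_mul_of_nonneg_left hSb (by positivity)
  calc _ ≤ _ := hint
    _ ≤ D * Real.sqrt (∑ i, a i ^ 2) + 16 * KK * s * D * Real.sqrt (∑ i, b i ^ 2) :=
        add_le_add hlin hFint
    _ ≤ s * D * S + 16 * KK * s * D * S := add_le_add h1 h2
    _ = (16 * KK + 1) * s * D * S := by ring

end Pool.Agent.H999R5.Gp
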