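import Pool.Agent.H999R5.Gp.Defs

/-! PWR (helper357): products of `m` factors. -/

set_option autoImplicit false

namespace Pool.Agent.H999R5.Gp

open MeasureTheory ProbabilityTheory Finset
open Pool.Agent.H999R5.Inj (form SymT injNorm gm gs qf GX S_OP S_SQ S_BDD)
open Pool.Agent.H999R5.Rk (ball sg sn Bd S_SN S_GR S_L1 S_POLI)
open Pool.Agent.H999R5.Sp (LQ Split S_NUM S_PLM)
open scoped Matrix

namespace PWRaux

lemma bd_sum {X ι : Type} [Fintype ι] {n : ℕ} (c : ι → ℝ)
    (F : ι → Fin n → X → ℝ) (hF : ∀ e, Bd (F e)) : Bd (fun i x => ∑ e, c e * F e i x) := by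
  choose B hB using hF
  refine ⟨∑ e, |c e| * B e, fun i x => ?_⟩
  refine (Finset.abs_sum_le_sum_abs _ _).trans (Finset.sum_le_sum fun e _ => ?_)
  rw [abs_mul]
  exact mul_le_mul_of_nonneg_left (hB e i x) (abs_nonneg _)

lemma sn_lin (hN : S_SN) {X ι : Type} [Fintype ι] (hX : Nonempty X) {n : ℕ} (c : ι → ℝ)
    (F : ι → Fin n → X → ℝ) (hF : ∀ e, Bd (F e)) :
    ∫ g, sn (fun i x => ∑ e, c e * F e i x) g ∂(gm n) ≤ ∑ e, |c e| * ∫ g, sn (F e) g ∂(gm n) := by
  have hb := bd_sum c F hF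
  obtain ⟨-, h2, -, -, h5⟩ := hN X hX n _ hb
  have hint : ∀ e, Integrable (sn (F e)) (gm n) := fun e => (hN X hX n _ (hF e)).2.2.2.2
  have h1 : ∀ g, sn (fun i x => ∑ e, c e * F e i x) g ≤ ∑ e, |c e| * sn (F e) g := by
    intro g
    refine h2 g _ fun x => ?_
    have h3 : ∑ i, g i * ∑ e, c e * F e i x = ∑ e, c e * ∑ i, g i * F e i x := by
      simp only [Finset.mul_sum]
      rw [Finset.sum_comm]
      exact Finset.sum_congr rfl fun _ _ => Finset.sum_congr rfl fun _ _ => by ring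
    rw [h3]
    refine (Finset.abs_sum_le_sum_abs _ _).trans (Finset.sum_le_sum fun e _ => ?_)
    rw [abs_mul]
    exact mul_le_mul_of_nonneg_left ((hN X hX n _ (hF e)).1 g x) (abs_nonneg _)
  refine (integral_mono h5 (integrable_finsetSum _ fun e _ => (hint e).const_mul _) h1).trans ?_
  rw [integral_finsetSum _ fun e _ => (hint e).const_mul _]
  refine le_of_eq (Finset.sum_congr rfl fun e _ => ?_)
  rw [integral_const_mul]

lemma lq_zero {d : ℕ} {q : (Fin d → ℝ) → ℝ} (h : LQ q) : q 0 = 0 := by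
  rcases h with ⟨v, hv⟩ | ⟨M, -, hM⟩
  · rw [hv]; simp
  · rw [hM]; simp [qf]

lemma lq_smul {d : ℕ} {q : (Fin d → ℝ) → ℝ} (h : LQ q) (c : ℝ) : LQ (fun x => c * q x) := by
  rcases h with ⟨v, hv⟩ | ⟨M, hs, hM⟩
  · refine Or.inl ⟨c • v, fun x => ?_⟩
    show c * q x = (c • v) ⬝ᵥ x
    rw [hv, smul_dotProduct, smul_eq_mul]
  · refine Or.inr ⟨c • M, hs.smul c, fun x => ?_⟩
    show c * q x = qf (c • M) x
    rw [hM]
    unfold qf
    rw [Matrix.smul_mulVec, dotProduct_smul, smul_eq_mul]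

lemma sg_abs (b : Bool) : |sg b| = 1 := by
  unfold sg
  cases b <;> simp

end PWRaux

open PWRaux

theorem t_PWG : S_PWG := by
  intro hM hG hN p C hp hC hL m n d hm hd q L hq hL0 hqL
  have hX0 : (0 : Fin d → ℝ) ∈ ball d p := by
    show ∑ i, |(0 : Fin d → ℝ) i| ^ p ≤ 1
    simp [Real.zero_rpow (by linarith : p ≠ 0)]
  have hX : Nonempty ↥(ball d p) := ⟨⟨0, hX0⟩⟩
  set K : Fin n → ℝ := fun i => ∏ j, L i j with hK
  have hK0 : ∀ i, 0 ≤ K i := fun i => Finset.prod_nonneg fun j _ => hL0 i j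
  set T : Fin n → Fin m → (Fin d → ℝ) → ℝ := fun i j x => q i j x / L i j with hT
  have hT1 : ∀ i j, ∀ x ∈ ball d p, |T i j x| ≤ 1 := by
    intro i j x hx
    rw [hT]
    simp only
    rw [abs_div, abs_of_nonneg (hL0 i j)]
    exact div_le_one_of_le₀ (hqL i j x hx) (hL0 i j)
  have hqT : ∀ i j, ∀ x ∈ ball d p, q i j x = L i j * T i j x := by
    intro i j x hx
    rcases (hL0 i j).eq_or_lt with h | h
    · have h1 := hqL i j x hx
      rw [← h] at h1 ⊢
      rw [zero_mul]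
      exact abs_eq_zero.1 (le_antisymm h1 (abs_nonneg _))
    · rw [hT]
      simp only
      field_simp
  -- the linear combinations
  set H : (Fin m → Bool) → Fin n → ↥(ball d p) → ℝ := fun ε i x => ∑ j, sg (ε j) * T i j x.1 with hH
  have hHm : ∀ ε i x, |H ε i x| ≤ m := by
    intro ε i x
    rw [hH]
    simp only
    refine (Finset.abs_sum_le_sum_abs _ _).trans ?_
    calc ∑ j, |sg (ε j) * T i j x.1| ≤ ∑ j : Fin m, (1 : ℝ) := Finset.sum_le_sum fun j _ => by
          rw [abs_mul, sg_abs, one_mul]; exact hT1 i j x.1 x.2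
      _ = m := by simp
  set S : ℝ := Real.sqrt (Real.log (Real.exp 1 * d)) * (d : ℝ) ^ (1 / 2 - 1 / p) *
    Real.sqrt (∑ i, K i ^ 2) with hS
  -- one linear term
  have hKb : ∀ i, K i ≤ ∑ i', K i' := fun i => Finset.single_le_sum (fun i' _ => hK0 i') (Finset.mem_univ i)
  have hGj : ∀ (ε : Fin m → Bool) (j : Fin m),
      Bd (fun i (x : ↥(ball d p)) => sg (ε j) * K i / L i j * q i j x.1) ∧
      ∫ g, sn (fun i (x : ↥(ball d p)) => sg (ε j) * K i / L i j * q i j x.1) g ∂(gm n) ≤ C * S := by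
    intro ε j
    have hb : ∀ i, ∀ x ∈ ball d p, |sg (ε j) * K i / L i j * q i j x| ≤ K i := by
      intro i x hx
      have h1 : sg (ε j) * K i / L i j * q i j x = sg (ε j) * K i * T i j x := by
        rw [hT]; simp only; ring
      rw [h1, abs_mul, abs_mul, sg_abs, one_mul, abs_of_nonneg (hK0 i)]
      exact mul_le_of_le_one_right (hK0 i) (hT1 i j x hx)
    refine ⟨⟨∑ i', K i', fun i x => (hb i x.1 x.2).trans (hKb i)⟩, ?_⟩
    have h2 := hL n d hd (fun i x => sg (ε j) * K i / L i j * q i j x) K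
      (fun i => lq_smul (hq i j) _) hK0 hb
    refine h2.trans (le_of_eq ?_)
    rw [hS]; ring
  -- the linear combination
  have hHε : ∀ ε : Fin m → Bool, Bd (fun i (x : ↥(ball d p)) => (m : ℝ) ^ m * K i * H ε i x) ∧
      ∫ g, sn (fun i (x : ↥(ball d p)) => (m : ℝ) ^ m * K i * H ε i x) g ∂(gm n) ≤
        (m : ℝ) ^ m * (m * (C * S)) := by
    intro ε
    have he : (fun i (x : ↥(ball d p)) => (m : ℝ) ^ m * K i * H ε i x) =
        fun i (x : ↥(ball d p)) => ∑ j, (m : ℝ) ^ m * (sg (ε j) * K i / L i j * q i j x.1) := by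
      funext i x
      rw [hH]
      simp only
      rw [Finset.mul_sum]
      refine Finset.sum_congr rfl fun j _ => ?_
      rw [hT]; simp only; ring
    rw [he]
    refine ⟨bd_sum (fun _ => (m : ℝ) ^ m) (fun j i (x : ↥(ball d p)) => sg (ε j) * K i / L i j * q i j x.1)
      fun j => (hGj ε j).1, ?_⟩
    refine (sn_lin hN hX (fun _ : Fin m => (m : ℝ) ^ m)
      (fun j i (x : ↥(ball d p)) => sg (ε j) * K i / L i j * q i j x.1) fun j => (hGj ε j).1).trans ?_
    rw [← Finset.mul_sum, abs_of_nonneg (by positivity)]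
    refine mul_le_mul_of_nonneg_left ?_ (by positivity)
    refine (Finset.sum_le_sum fun j _ => (hGj ε j).2).trans (le_of_eq ?_)
    rw [Finset.sum_const, Finset.card_univ, Fintype.card_fin, nsmul_eq_mul]
  -- the powers
  have hPε : ∀ ε : Fin m → Bool, Bd (fun i (x : ↥(ball d p)) => K i * H ε i x ^ m) ∧
      ∫ g, sn (fun i (x : ↥(ball d p)) => K i * H ε i x ^ m) g ∂(gm n) ≤
        2 * ((m : ℝ) ^ m * (m * (C * S))) := by
    intro ε
    have hb : Bd (fun i (x : ↥(ball d p)) => K i * H ε i x ^ m) := by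
      refine ⟨(∑ i', K i') * (m : ℝ) ^ m, fun i x => ?_⟩
      rw [abs_mul, abs_pow, abs_of_nonneg (hK0 i)]
      exact mul_le_mul (hKb i) (pow_le_pow_left₀ (abs_nonneg _) (hHm ε i x) _) (by positivity)
        (Finset.sum_nonneg fun i' _ => hK0 i')
    refine ⟨hb, ?_⟩
    refine (hG ↥(ball d p) hX n _ _ hb (hHε ε).1 ?_ ⟨0, hX0⟩ ?_).trans
      (mul_le_mul_of_nonneg_left (hHε ε).2 (by norm_num))
    · intro i x y
      rw [← mul_sub, ← mul_sub, abs_mul, abs_mul, abs_mul, abs_of_nonneg (hK0 i),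
        abs_of_nonneg (by positivity : (0 : ℝ) ≤ (m : ℝ) ^ m)]
      have h1 := abs_pow_sub_pow_le (H ε i x) (H ε i y) m
      have h2 : max |H ε i x| |H ε i y| ≤ m := max_le (hHm ε i x) (hHm ε i y)
      have h3 : |H ε i x ^ m - H ε i y ^ m| ≤ (m : ℝ) ^ m * |H ε i x - H ε i y| := by
        refine h1.trans ?_
        have h4 : max |H ε i x| |H ε i y| ^ (m - 1) ≤ (m : ℝ) ^ (m - 1) :=
          pow_le_pow_left₀ (le_max_of_le_left (abs_nonneg _)) h2 _
        have h5 : (m : ℝ) ^ m = m * (m : ℝ) ^ (m - 1) := by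
          rw [← pow_succ', Nat.sub_add_cancel hm]
        rw [h5]
        calc |H ε i x - H ε i y| * m * max |H ε i x| |H ε i y| ^ (m - 1)
            ≤ |H ε i x - H ε i y| * m * (m : ℝ) ^ (m - 1) := mul_le_mul_of_nonneg_left h4 (by positivity)
          _ = _ := by ring
      calc K i * |H ε i x ^ m - H ε i y ^ m| ≤ K i * ((m : ℝ) ^ m * |H ε i x - H ε i y|) :=
            mul_le_mul_of_nonneg_left h3 (hK0 i)
        _ = _ := by ring
    · intro i
      have h0 : H ε i ⟨0, hX0⟩ = 0 := by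
        rw [hH]
        simp only
        refine Finset.sum_eq_zero fun j _ => ?_
        rw [hT]
        simp only
        rw [lq_zero (hq i j), zero_div, mul_zero]
      show K i * H ε i ⟨0, hX0⟩ ^ m = 0
      rw [h0, zero_pow (by omega), mul_zero]
  -- polarisation
  have hf : (fun i (x : ↥(ball d p)) => ∏ j, q i j x.1) =
      fun i (x : ↥(ball d p)) => ∑ ε : Fin m → Bool,
        ((∏ j, sg (ε j)) / (2 ^ m * (m.factorial : ℝ))) * (K i * H ε i x ^ m) := by
    funext i x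
    have h1 : ∏ j, q i j x.1 = K i * ∏ j, T i j x.1 := by
      rw [hK]
      simp only
      rw [← Finset.prod_mul_distrib]
      exact Finset.prod_congr rfl fun j _ => hqT i j x.1 x.2
    rw [h1, hM m (fun j => T i j x.1), Finset.sum_div, Finset.mul_sum]
    refine Finset.sum_congr rfl fun ε _ => ?_
    rw [hH]
    simp only
    ring
  rw [hf]
  refine (sn_lin hN hX (fun ε : Fin m → Bool => (∏ j, sg (ε j)) / (2 ^ m * (m.factorial : ℝ)))
    (fun ε i (x : ↥(ball d p)) => K i * H ε i x ^ m) fun ε => (hPε ε).1).trans ?_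
  have hc : ∀ ε : Fin m → Bool, |(∏ j, sg (ε j)) / (2 ^ m * (m.factorial : ℝ))| =
      1 / (2 ^ m * (m.factorial : ℝ)) := by
    intro ε
    rw [abs_div, Finset.abs_prod, abs_of_pos (by positivity : (0 : ℝ) < 2 ^ m * (m.factorial : ℝ))]
    congr 1
    exact Finset.prod_eq_one fun j _ => sg_abs _
  have hSnn : 0 ≤ S := by rw [hS]; positivity
  calc ∑ ε : Fin m → Bool, |(∏ j, sg (ε j)) / (2 ^ m * (m.factorial : ℝ))| *
        ∫ g, sn (fun i (x : ↥(ball d p)) => K i * H ε i x ^ m) g ∂(gm n)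
      ≤ ∑ ε : Fin m → Bool, 1 / (2 ^ m * (m.factorial : ℝ)) * (2 * ((m : ℝ) ^ m * (m * (C * S)))) := by
        refine Finset.sum_le_sum fun ε _ => ?_
        rw [hc ε]
        exact mul_le_mul_of_nonneg_left (hPε ε).2 (by positivity)
    _ = 2 * C * ((m : ℝ) ^ (m + 1) / m.factorial) * S := by
        rw [Finset.sum_const, Finset.card_univ, Fintype.card_fun, Fintype.card_bool, Fintype.card_fin,
          nsmul_eq_mul]
        push_cast
        have hfm : (m.factorial : ℝ) ≠ 0 := by exact_mod_cast m.factorial_ne_zero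
        field_simp
        ring
    _ = _ := by rw [hS]; ring

end Pool.Agent.H999R5.Gp
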