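import Pool.Agent.H999R5.Gp.Defs

/-! RND: random rounding. -/

set_option autoImplicit false

namespace Pool.Agent.H999R5.Gp

open MeasureTheory ProbabilityTheory Finset
open scoped Matrix
open Pool.Agent.H999R5.Inj (form SymT injNorm gm gs qf GX S_OP S_SQ S_BDD)

namespace RNDaux

/-- sign -/
noncomputable def sg {d : ℕ} (ε : Fin d → Bool) (a : Fin d) : ℝ := if ε a then (1 : ℝ) else -1

theorem sg_sq {d : ℕ} (ε : Fin d → Bool) (a : Fin d) : sg ε a * sg ε a = 1 := by
  unfold sg; split_ifs <;> norm_num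

theorem sum_sg {d : ℕ} (a b : Fin d) :
    ∑ ε : Fin d → Bool, sg ε a * sg ε b = if a = b then (2 : ℝ) ^ d else 0 := by
  split_ifs with h
  · subst h
    simp only [sg_sq]
    simp
  · have hinv : Function.Involutive (fun ε : Fin d → Bool => Function.update ε a (!ε a)) := by
      intro ε
      funext c
      by_cases hc : c = a
      · subst hc; simp
      · simp [Function.update_of_ne hc]
    have h1 := Fintype.sum_equiv hinv.toPerm
      (fun ε : Fin d → Bool => sg (Function.update ε a (!ε a)) a *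
        sg (Function.update ε a (!ε a)) b) (fun ε => sg ε a * sg ε b) (fun ε => rfl)
    have h2 : ∀ ε : Fin d → Bool, sg (Function.update ε a (!ε a)) a *
        sg (Function.update ε a (!ε a)) b = -(sg ε a * sg ε b) := by
      intro ε
      have e1 : sg (Function.update ε a (!ε a)) a = -sg ε a := by
        unfold sg
        rw [Function.update_self]
        cases ε a <;> simp
      have e2 : sg (Function.update ε a (!ε a)) b = sg ε b := by
        unfold sg
        rw [Function.update_of_ne (Ne.symm h)]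
      rw [e1, e2]; ring
    rw [Finset.sum_congr rfl fun ε _ => h2 ε, Finset.sum_neg_distrib] at h1
    linarith

theorem qf_eq {d : ℕ} (M : Matrix (Fin d) (Fin d) ℝ) (z : Fin d → ℝ) :
    qf M z = ∑ k, ∑ l, M k l * (z k * z l) := by
  unfold qf
  simp only [dotProduct, Matrix.mulVec, Finset.mul_sum]
  refine Finset.sum_congr rfl fun k _ => Finset.sum_congr rfl fun l _ => ?_
  ring

theorem hom {d : ℕ} {p : ℝ} (hp : 2 < p) (M : Matrix (Fin d) (Fin d) ℝ) (N : ℝ) (hN : 0 ≤ N)
    (h : ∀ x : Fin d → ℝ, (∑ i, |x i| ^ p) ≤ 1 → |qf M x| ≤ N) (z : Fin d → ℝ) :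
    |qf M z| ≤ N * (∑ i, |z i| ^ p) ^ (2 / p) := by
  have hp0 : 0 < p := by linarith
  set S := ∑ i, |z i| ^ p with hS
  have hS0 : 0 ≤ S := Finset.sum_nonneg fun i _ => Real.rpow_nonneg (abs_nonneg _) _
  rcases hS0.eq_or_lt with h0 | h0
  · have hz : ∀ i, z i = 0 := by
      intro i
      have h1 := (Finset.sum_eq_zero_iff_of_nonneg
        (fun i _ => Real.rpow_nonneg (abs_nonneg (z i)) p)).mp h0.symm i (Finset.mem_univ i)
      have h2 := (Real.rpow_eq_zero (abs_nonneg _) hp0.ne').mp h1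
      exact abs_eq_zero.mp h2
    have : qf M z = 0 := by
      rw [qf_eq]
      refine Finset.sum_eq_zero fun k _ => Finset.sum_eq_zero fun l _ => ?_
      rw [hz k]; ring
    rw [this, abs_zero]
    positivity
  · set c := S ^ (1 / p) with hc
    have hc0 : 0 < c := Real.rpow_pos_of_pos h0 _
    have hcp : c ^ p = S := by
      rw [hc, ← Real.rpow_mul hS0, one_div, inv_mul_cancel₀ hp0.ne', Real.rpow_one]
    have h1 := h (fun i => z i / c) (by
      have : ∀ i, |z i / c| ^ p = |z i| ^ p / S := by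
        intro i
        rw [abs_div, abs_of_pos hc0, Real.div_rpow (abs_nonneg _) hc0.le, hcp]
      rw [Finset.sum_congr rfl fun i _ => this i, ← Finset.sum_div, ← hS, div_self h0.ne'])
    have h2 : qf M z = c ^ 2 * qf M (fun i => z i / c) := by
      rw [qf_eq, qf_eq, Finset.mul_sum]
      refine Finset.sum_congr rfl fun k _ => ?_
      rw [Finset.mul_sum]
      refine Finset.sum_congr rfl fun l _ => ?_
      field_simp
    have h3 : c ^ 2 = S ^ (2 / p) := by
      rw [hc, ← Real.rpow_natCast, ← Real.rpow_mul hS0]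
      congr 1
      push_cast
      ring
    rw [h2, abs_mul, abs_of_pos (by positivity : (0 : ℝ) < c ^ 2), h3, mul_comm N]
    exact mul_le_mul_of_nonneg_left h1 (Real.rpow_nonneg hS0 _)

end RNDaux

open RNDaux in
theorem t_RNDG (h0 : S_KHG) : S_RNDG := by
  intro p hp
  obtain ⟨c, hc, h⟩ := h0 p hp
  have hp0 : 0 < p := by linarith
  refine ⟨c ^ (2 / p), Real.one_le_rpow hc (by positivity), ?_⟩
  intro d M N hN hM Y hY
  obtain ⟨m, B, hB⟩ := Matrix.posSemidef_iff_eq_sum_vecMulVec.mp hY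
  have hYkl : ∀ k l, Y k l = ∑ a, B a k * B a l := by
    intro k l
    rw [hB, Matrix.sum_apply]
    refine Finset.sum_congr rfl fun a _ => ?_
    simp [Matrix.vecMulVec_apply]
  set z : (Fin m → Bool) → Fin d → ℝ := fun ε k => ∑ a, B a k * sg ε a with hz
  have h2d : (0 : ℝ) < 2 ^ m := by positivity
  -- second moments
  have hmom : ∀ k l, ∑ ε, z ε k * z ε l = 2 ^ m * Y k l := by
    intro k l
    have h1 : ∀ ε, z ε k * z ε l = ∑ a, ∑ b, B a k * B b l * (sg ε a * sg ε b) := by
      intro ε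
      simp only [hz]
      rw [Finset.sum_mul_sum]
      refine Finset.sum_congr rfl fun a _ => Finset.sum_congr rfl fun b _ => ?_
      ring
    calc ∑ ε, z ε k * z ε l = ∑ ε, ∑ a, ∑ b, B a k * B b l * (sg ε a * sg ε b) :=
          Finset.sum_congr rfl fun ε _ => h1 ε
      _ = ∑ a, ∑ b, ∑ ε, B a k * B b l * (sg ε a * sg ε b) := by
          rw [Finset.sum_comm]
          exact Finset.sum_congr rfl fun a _ => Finset.sum_comm
      _ = ∑ a, ∑ b, B a k * B b l * (if a = b then (2 : ℝ) ^ m else 0) := by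
          refine Finset.sum_congr rfl fun a _ => Finset.sum_congr rfl fun b _ => ?_
          rw [← Finset.mul_sum, sum_sg]
      _ = ∑ a, B a k * B a l * (2 : ℝ) ^ m := by
          refine Finset.sum_congr rfl fun a _ => ?_
          simp only [mul_ite, mul_zero, Finset.sum_ite_eq, Finset.mem_univ, if_true]
      _ = 2 ^ m * Y k l := by
          rw [hYkl, Finset.mul_sum]
          exact Finset.sum_congr rfl fun a _ => by ring
  have hE : ∑ ε, qf M (z ε) = 2 ^ m * (M * Y).trace := by
    have h1 : (M * Y).trace = ∑ k, ∑ l, M k l * Y k l := by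
      rw [Matrix.trace]
      refine Finset.sum_congr rfl fun k _ => ?_
      rw [Matrix.diag_apply, Matrix.mul_apply]
      refine Finset.sum_congr rfl fun l _ => ?_
      rw [hYkl l k, hYkl k l]
      congr 1
      exact Finset.sum_congr rfl fun a _ => by ring
    rw [h1]
    calc ∑ ε, qf M (z ε) = ∑ ε, ∑ k, ∑ l, M k l * (z ε k * z ε l) :=
          Finset.sum_congr rfl fun ε _ => qf_eq M (z ε)
      _ = ∑ k, ∑ l, ∑ ε, M k l * (z ε k * z ε l) := by
          rw [Finset.sum_comm]
          exact Finset.sum_congr rfl fun a _ => Finset.sum_comm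
      _ = ∑ k, ∑ l, M k l * (2 ^ m * Y k l) := by
          refine Finset.sum_congr rfl fun k _ => Finset.sum_congr rfl fun l _ => ?_
          rw [← Finset.mul_sum, hmom]
      _ = 2 ^ m * ∑ k, ∑ l, M k l * Y k l := by
          rw [Finset.mul_sum]
          refine Finset.sum_congr rfl fun k _ => ?_
          rw [Finset.mul_sum]
          exact Finset.sum_congr rfl fun l _ => by ring
  set S : (Fin m → Bool) → ℝ := fun ε => ∑ k, |z ε k| ^ p with hS
  have hS0 : ∀ ε, 0 ≤ S ε := fun ε =>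
    Finset.sum_nonneg fun i _ => Real.rpow_nonneg (abs_nonneg _) _
  have hA0 : 0 ≤ ∑ k, (Y k k) ^ (p / 2) := by
    refine Finset.sum_nonneg fun k _ => Real.rpow_nonneg ?_ _
    rw [hYkl]
    exact Finset.sum_nonneg fun a _ => mul_self_nonneg _
  -- average of S
  have hSavg : ∑ ε, (1 / 2 ^ m : ℝ) * S ε ≤ c * ∑ k, (Y k k) ^ (p / 2) := by
    rw [← Finset.mul_sum]
    simp only [hS]
    rw [Finset.sum_comm, Finset.mul_sum, Finset.mul_sum]
    refine Finset.sum_le_sum fun k _ => ?_
    have h1 := h m (fun a => B a k)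
    have h2 : ∑ a, (B a k) ^ 2 = Y k k := by
      rw [hYkl]; exact Finset.sum_congr rfl fun a _ => by ring
    rw [h2] at h1
    refine le_trans (le_of_eq ?_) h1
    rw [one_div, inv_mul_eq_div]
    rfl
  have hJ : ∑ ε, (1 / 2 ^ m : ℝ) * S ε ^ (2 / p) ≤ (∑ ε, (1 / 2 ^ m : ℝ) * S ε) ^ (2 / p) := by
    have h1 := Real.rpow_arith_mean_le_arith_mean_rpow (Finset.univ : Finset (Fin m → Bool))
      (fun _ => (1 / 2 ^ m : ℝ)) (fun ε => S ε ^ (2 / p)) (fun _ _ => by positivity)
      (by simp) (fun ε _ => Real.rpow_nonneg (hS0 ε) _)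
      (p := p / 2) (by linarith)
    have h2 : ∀ ε, (S ε ^ (2 / p)) ^ (p / 2) = S ε := by
      intro ε
      rw [← Real.rpow_mul (hS0 ε)]
      have : 2 / p * (p / 2) = 1 := by field_simp
      rw [this, Real.rpow_one]
    simp only [h2] at h1
    have h0 : 0 ≤ ∑ ε, (1 / 2 ^ m : ℝ) * S ε ^ (2 / p) :=
      Finset.sum_nonneg fun ε _ => mul_nonneg (by positivity) (Real.rpow_nonneg (hS0 ε) _)
    have h3 := Real.rpow_le_rpow (Real.rpow_nonneg h0 _) h1 (by positivity : (0 : ℝ) ≤ 2 / p)
    rw [← Real.rpow_mul h0] at h3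
    have : p / 2 * (2 / p) = 1 := by field_simp
    rwa [this, Real.rpow_one] at h3
  have htr : (M * Y).trace = ∑ ε, (1 / 2 ^ m : ℝ) * qf M (z ε) := by
    rw [← Finset.mul_sum, hE]
    field_simp
  have hB0 : 0 ≤ ∑ ε, (1 / 2 ^ m : ℝ) * S ε :=
    Finset.sum_nonneg fun ε _ => mul_nonneg (by positivity) (hS0 ε)
  calc |(M * Y).trace| ≤ ∑ ε, (1 / 2 ^ m : ℝ) * (N * S ε ^ (2 / p)) := by
        rw [htr]
        refine (Finset.abs_sum_le_sum_abs _ _).trans (Finset.sum_le_sum fun ε _ => ?_)
        rw [abs_mul, abs_of_pos (by positivity : (0 : ℝ) < 1 / 2 ^ m)]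
        exact mul_le_mul_of_nonneg_left (hom hp M N hN hM (z ε)) (by positivity)
    _ = N * ∑ ε, (1 / 2 ^ m : ℝ) * S ε ^ (2 / p) := by
        rw [Finset.mul_sum]
        exact Finset.sum_congr rfl fun ε _ => by ring
    _ ≤ N * (∑ ε, (1 / 2 ^ m : ℝ) * S ε) ^ (2 / p) := mul_le_mul_of_nonneg_left hJ hN
    _ ≤ N * (c * ∑ k, (Y k k) ^ (p / 2)) ^ (2 / p) :=
        mul_le_mul_of_nonneg_left (Real.rpow_le_rpow hB0 hSavg (by positivity)) hN
    _ = c ^ (2 / p) * N * (∑ k, (Y k k) ^ (p / 2)) ^ (2 / p) := by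
        rw [Real.mul_rpow (by linarith) hA0]
        ring

end Pool.Agent.H999R5.Gp
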