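import Pool.Agent.H999R5.SpF.Asm
import Pool.Agent.H999R5.Gp.T_KHG
import Pool.Agent.H999R5.Gp.T_RNDG
import Pool.Agent.H999R5.Gp.T_DUALG
import Pool.Agent.H999R5.Gp.T_TWOG
import Pool.Agent.H999R5.Gp.T_FING
import Pool.Agent.H999R5.Gp.T_FI2
import Pool.Agent.H999R5.Gp.T_LQG
import Pool.Agent.H999R5.Gp.T_PWG
import Pool.Agent.H999R5.Gp.T_GRG
import Pool.Agent.H999R5.Gp.T_REG

/-! Assembly: products of linear and quadratic forms, all exponents `p ≥ 2`. -/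

set_option autoImplicit false

namespace Pool.Agent.H999R5.Gp

theorem asm_of_FIN (p K : ℝ) (hp : 2 ≤ p) (hK : 1 ≤ K) (h : FIN p K) :
    ∃ C : ℝ, 0 ≤ C ∧ RES p C := by
  have hC : (0 : ℝ) ≤ 16 * K + 1 := by linarith
  have h1 : LQ1 p (16 * K + 1) := t_LQG Sp.asm_L1 Rk.t_SN p K hp hK h
  have h2 : PWR p (16 * K + 1) := t_PWG (Sp.t_NUM Rk.t_POLI) Sp.asm_GR Rk.t_SN p _ hp hC h1
  have h3 : GRP p (16 * K + 1) := t_GRG Rk.t_SN p _ hp hC h2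
  exact ⟨16 * K + 1, hC, t_REG (Sp.t_PLM (Sp.t_PL2 Sp.t_LAG)) Inj.t_BDD Rk.t_SN p _ hp hC h3⟩

theorem asm_RES (p : ℝ) (hp : 2 ≤ p) : ∃ C : ℝ, 0 ≤ C ∧ RES p C := by
  rcases hp.eq_or_lt with h | h
  · subst h
    exact asm_of_FIN 2 1 le_rfl le_rfl (t_FI2 Inj.asm_OP Inj.t_SQ)
  · obtain ⟨K, hK, hR⟩ := t_RNDG t_KHG p h
    exact asm_of_FIN p K hp hK
      (t_FING Inj.asm_OP Inj.t_SQ p K h hK (t_TWOG p K h hK (t_DUALG p K h hK hR)))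

end Pool.Agent.H999R5.Gp
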